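import Pool.Agent.W516.MTF2.Main

/-!
# The graded algebra of the periods of a mixed Tate motive over `ℤ`

All homogeneous polynomial relations with rational coefficients between the periods of a mixed Tate
motive over `ℤ` are motivic (so the graded algebra of the motivic periods is mapped isomorphically to
the graded algebra of the periods) if and only if they are stable under the single-valued matrix
`p⁻¹ p̄`.
-/

set_option autoImplicit false

namespace Pool.Agent.Results.MP_f3dc73_nt.PeriodAlgebra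

open Pool.Agent.W516.MTZ Pool.Agent.W516.MTP Pool.Agent.W516.MTF2

theorem result (m X : Type) [Fintype m] [DecidableEq m] [Fintype X] [DecidableEq X]
    (M : Motive m X) (p : (Matrix m m ℂ)ˣ) (hp : p ∈ M.gp)
    (hdeg : ∀ x, Odd (M.deg x) ∧ 3 ≤ M.deg x) (hinj : Function.Injective M.deg)
    (hpi : (p : Matrix m m ℂ) M.t M.t = 2 * Real.pi * Complex.I)
    (hzeta : ∀ x, (p : Matrix m m ℂ) M.o (M.s x) = riemannZeta (M.deg x)) :
    (∀ g ∈ M.gp, Vanish (homRel M (p : Matrix m m ℂ))
      ((g : (Matrix m m ℂ)ˣ) : Matrix m m ℂ)) ↔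
    ∀ B : (Matrix m m ℂ)ˣ, Vanish (homRel M (p : Matrix m m ℂ)) (B : Matrix m m ℂ) →
      Vanish (homRel M (p : Matrix m m ℂ)) ((B : Matrix m m ℂ) *
        (((p⁻¹ : (Matrix m m ℂ)ˣ) : Matrix m m ℂ) * (p : Matrix m m ℂ).map (starRingEnd ℂ))) :=
  main_f hp hdeg hinj hpi hzeta

end Pool.Agent.Results.MP_f3dc73_nt.PeriodAlgebra
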